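import Mathlib
import Pool.Agent.W757.RD.StG
import Pool.Agent.W40.RQAF
import Pool.Agent.H790R3.RB.TPQ

/-! Task RE-UGA (helper402): the algebraic part of the uniform gain. -/

set_option autoImplicit false
set_option linter.unusedVariables false

open Topology Filter Metric Set MeasureTheory Polynomial
open Pool.Agent.H790R3.RB (CV hF cr ND wr rt Ix yx yc sp HypTop pol)
open Pool.Agent.W757.QR (nu de fx fr d1 d2 wn pre RM Gv)
open Pool.Agent.W757.RD
open Pool.Agent.W40.RQAF (Q_ne af_ne af_mem has_deriv wn_ne)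

namespace Pool.Agent.W402.RE.UGA

lemma coprime_ne {P Q : ℂ[X]} (h : IsCoprime P Q) (z : ℂ) (hP : P.eval z = 0)
    (hQ : Q.eval z = 0) : False := by
  obtain ⟨u, v, huv⟩ := h
  have := congrArg (fun R : ℂ[X] => R.eval z) huv
  simp [hP, hQ] at this

lemma zeros_finite {A : ℂ[X]} (hA : A ≠ 0) : {z : ℂ | A.eval z = 0}.Finite := by
  apply A.roots.toFinset.finite_toSet.subset
  intro z hz
  simp only [Finset.mem_coe, Multiset.mem_toFinset, mem_roots hA]
  exact hz

lemma preimage_finite {d : ℕ} {P Q : ℂ[X]} (h : RM d P Q) {F : Set ℂ} (hF : F.Finite) :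
    {z : ℂ | Q.eval z ≠ 0 ∧ fr P Q z ∈ F}.Finite := by
  apply (hF.biUnion (t := fun w => ((pre P Q w : Finset ℂ) : Set ℂ))
    (fun w _ => Finset.finite_toSet _)).subset
  rintro z ⟨hz, hzF⟩
  rw [mem_iUnion₂]
  exact ⟨fr P Q z, hzF, (af_mem h _ _).mpr ⟨hz, rfl⟩⟩

/-- all but finitely many values are generic -/
lemma gv_finite {d : ℕ} {P Q : ℂ[X]} (h : RM d P Q) : {w : ℂ | ¬ Gv d P Q w}.Finite := by
  have hw := wn_ne h
  have hh := h
  obtain ⟨hd, hco, hmax⟩ := h
  refine (((finite_singleton (P.coeff d / Q.coeff d))).union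
    ((zeros_finite hw).image fun ζ => fr P Q ζ)).subset ?_
  intro w hw'
  have hdeg : (P - C w * Q).natDegree ≤ d := by
    refine (natDegree_sub_le _ _).trans (max_le ?_ ((natDegree_C_mul_le _ _).trans ?_))
    · rw [← hmax]; exact le_max_left _ _
    · rw [← hmax]; exact le_max_right _ _
  have hw2 : (P - C w * Q).natDegree ≠ d ∨ ¬ ∀ ζ ∈ pre P Q w, (wn P Q).eval ζ ≠ 0 := by
    by_contra hcon
    push Not at hcon
    exact hw' ⟨hcon.1, hcon.2⟩
  rcases hw2 with h1 | h1
  · left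
    have h2 : (P - C w * Q).coeff d = 0 := coeff_eq_zero_of_natDegree_lt (lt_of_le_of_ne hdeg h1)
    rw [coeff_sub, coeff_C_mul] at h2
    have h3 : Q.coeff d ≠ 0 := by
      intro h3
      rw [h3, mul_zero, sub_zero] at h2
      rcases max_choice P.natDegree Q.natDegree with h4 | h4
      · have h5 : P.natDegree = d := by omega
        rw [← h5] at h2
        have : P = 0 := leadingCoeff_eq_zero.1 h2
        rw [this] at h5
        simp at h5
        omega
      · have h5 : Q.natDegree = d := by omega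
        rw [← h5] at h3
        have : Q = 0 := leadingCoeff_eq_zero.1 h3
        rw [this] at h5
        simp at h5
        omega
    rw [mem_singleton_iff, eq_div_iff h3]
    linear_combination -h2
  · right
    push Not at h1
    obtain ⟨ζ, h2, h3⟩ := h1
    exact ⟨ζ, h3, ((af_mem hh w ζ).mp h2).2⟩

lemma card_pre {d : ℕ} {P Q : ℂ[X]} (h : RM d P Q) {w : ℂ} (hG : Gv d P Q w) :
    (pre P Q w).card = d := by
  have h0 := af_ne h w
  obtain ⟨h1, h2⟩ := hG
  unfold pre
  rw [Multiset.toFinset_card_of_nodup]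
  · rw [← h1]
    exact (IsAlgClosed.splits (P - C w * Q)).natDegree_eq_card_roots.symm
  · rw [Multiset.nodup_iff_count_le_one]
    intro ζ
    rw [count_roots]
    by_contra hcon
    rw [not_le, one_lt_rootMultiplicity_iff_isRoot h0] at hcon
    obtain ⟨h3, h4⟩ := hcon
    have h5 : ζ ∈ pre P Q w := by
      unfold pre
      rw [Multiset.mem_toFinset, mem_roots h0]
      exact h3
    apply h2 ζ h5
    rw [IsRoot.def, eval_sub, eval_mul, eval_C, sub_eq_zero] at h3
    rw [IsRoot.def, derivative_sub, derivative_C_mul, eval_sub, eval_mul, eval_C, sub_eq_zero] at h4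
    unfold wn
    rw [eval_sub, eval_mul, eval_mul, h3, h4]
    ring

/-- a rational function which is invariant under composition with a rational map of degree at
least two is constant -/
theorem const_of_comp {d : ℕ} {P Q : ℂ[X]} (hR : RM d P Q) (A B : ℂ[X]) (hAB : IsCoprime A B)
    (hB : B ≠ 0) (S : Set ℂ) (hS : S.Finite)
    (h : ∀ z : ℂ, z ∉ S → Q.eval z ≠ 0 →
      A.eval (fr P Q z) * B.eval z = A.eval z * B.eval (fr P Q z)) :
    ∃ c : ℂ, A = C c * B := by
  by_contra hno
  push Not at hno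
  have hF : ((fr P Q) '' S ∪ {w : ℂ | ¬ Gv d P Q w}).Finite := (hS.image _).union (gv_finite hR)
  set F := (fr P Q) '' S ∪ {w : ℂ | ¬ Gv d P Q w} with hFdef
  have hY0 : {y : ℂ | (A - C y * B).natDegree = 0}.Subsingleton := by
    intro y₁ hy₁ y₂ hy₂
    by_contra hne
    rw [mem_ofPred_eq] at hy₁ hy₂
    obtain ⟨a₁, ha₁⟩ := natDegree_eq_zero.mp hy₁
    obtain ⟨a₂, ha₂⟩ := natDegree_eq_zero.mp hy₂
    have hsub : y₂ - y₁ ≠ 0 := sub_ne_zero.mpr (Ne.symm hne)
    have h1 : C (y₂ - y₁) * B = C (a₁ - a₂) := by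
      rw [C_sub, C_sub, ha₁, ha₂]
      ring
    have h2 : B = C ((a₁ - a₂) / (y₂ - y₁)) := by
      have : C (y₂ - y₁)⁻¹ * (C (y₂ - y₁) * B) = C (y₂ - y₁)⁻¹ * C (a₁ - a₂) := by rw [h1]
      rw [← mul_assoc, ← C_mul, inv_mul_cancel₀ hsub, C_1, one_mul, ← C_mul] at this
      rw [this]
      congr 1
      field_simp
    have h3 : A = C (a₁ + y₁ * ((a₁ - a₂) / (y₂ - y₁))) := by
      have : A = C a₁ + C y₁ * B := by rw [ha₁]; ring
      rw [this]
      conv_lhs => rw [h2]
      rw [← C_mul, ← C_add]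
    have hb : (a₁ - a₂) / (y₂ - y₁) ≠ 0 := by
      intro h0
      rw [h0, C_0] at h2
      exact hB h2
    apply hno ((a₁ + y₁ * ((a₁ - a₂) / (y₂ - y₁))) / ((a₁ - a₂) / (y₂ - y₁)))
    conv_rhs => rw [h2]
    rw [← C_mul, div_mul_cancel₀ _ hb]
    exact h3
  have hbad : ((fun e => A.eval e / B.eval e) '' F ∪ {y : ℂ | (A - C y * B).natDegree = 0}).Finite :=
    (hF.image _).union hY0.finite
  obtain ⟨y, hy⟩ := hbad.infinite_compl.nonempty
  rw [mem_compl_iff, mem_union, not_or] at hy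
  obtain ⟨hy1, hy2⟩ := hy
  have hne : A - C y * B ≠ 0 := by
    intro h0
    apply hy2
    rw [mem_ofPred_eq, h0, natDegree_zero]
  set E := (A - C y * B).roots.toFinset with hE
  have hmem : ∀ z : ℂ, z ∈ E ↔ A.eval z = y * B.eval z := by
    intro z
    rw [hE, Multiset.mem_toFinset, mem_roots hne, IsRoot.def, eval_sub, eval_mul, eval_C,
      sub_eq_zero]
  have hEne : E.Nonempty := by
    have hdeg : (A - C y * B).degree ≠ 0 := by
      intro h0
      exact hy2 (natDegree_eq_of_degree_eq_some h0)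
    obtain ⟨z, hz⟩ := IsAlgClosed.exists_root (A - C y * B) hdeg
    refine ⟨z, ?_⟩
    rw [hE, Multiset.mem_toFinset, mem_roots hne]
    exact hz
  have hB0 : ∀ z ∈ E, B.eval z ≠ 0 := by
    intro z hz h0
    have h1 := (hmem z).mp hz
    rw [h0, mul_zero] at h1
    exact coprime_ne hAB z h1 h0
  have hEF : ∀ z ∈ E, z ∉ F := by
    intro z hz hzF
    apply hy1
    refine ⟨z, hzF, ?_⟩
    show A.eval z / B.eval z = y
    rw [(hmem z).mp hz, mul_div_assoc, div_self (hB0 z hz), mul_one]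
  have hsub : E.biUnion (fun w => pre P Q w) ⊆ E := by
    intro ζ hζ
    rw [Finset.mem_biUnion] at hζ
    obtain ⟨w, hw, hζw⟩ := hζ
    obtain ⟨hq, hf⟩ := (af_mem hR w ζ).mp hζw
    have hζS : ζ ∉ S := by
      intro hmem'
      exact hEF w hw (Or.inl ⟨ζ, hmem', hf⟩)
    have h1 := h ζ hζS hq
    rw [hf, (hmem w).mp hw] at h1
    rw [hmem]
    have h2 := hB0 w hw
    apply mul_right_cancel₀ h2
    linear_combination -h1
  have hcard := Finset.card_le_card hsub
  rw [Finset.card_biUnion] at hcard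
  · have hsum : ∑ w ∈ E, (pre P Q w).card = E.card * d := by
      rw [Finset.sum_congr rfl (g := fun _ => d)]
      · rw [Finset.sum_const, smul_eq_mul]
      · intro w hw
        apply card_pre hR
        by_contra hG
        exact hEF w hw (Or.inr hG)
    rw [hsum] at hcard
    have hd := hR.1
    have hpos := hEne.card_pos
    nlinarith
  · intro w₁ _ w₂ _ hne'
    rw [Function.onFun, Finset.disjoint_left]
    intro ζ h1 h2
    exact hne' (((af_mem hR w₁ ζ).mp h1).2.symm.trans ((af_mem hR w₂ ζ).mp h2).2)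

/-- the differential equation has no nonzero rational solution -/
theorem ode {β : ℝ} (h1 : 1 / 2 < β) (h2 : β < 1) (A B : ℂ[X]) (hAB : IsCoprime A B)
    (hB : B ≠ 0) (c : ℂ)
    (h : X * (X - 1) * (derivative A * B - A * derivative B) -
      C (β : ℂ) * (2 * X - 1) * (A * B) = C c * (X * (X - 1) * B ^ 2)) : A = 0 := by
  have hnoroot : ∀ z₀ : ℂ, B.eval z₀ ≠ 0 := by
    intro z₀ hz₀
    have hA0 : A.eval z₀ ≠ 0 := fun h0 => coprime_ne hAB z₀ h0 hz₀
    obtain ⟨B₁, hB₁, hB₁d⟩ := exists_eq_pow_rootMultiplicity_mul_and_not_dvd B hB z₀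
    set m := rootMultiplicity z₀ B with hm
    have hm1 : 1 ≤ m := (rootMultiplicity_pos hB).mpr hz₀
    have hB₁0 : B₁.eval z₀ ≠ 0 := fun h0 => hB₁d (dvd_iff_isRoot.mpr h0)
    have hder : (X - C z₀) * derivative B =
        (X - C z₀) ^ m * (C (m : ℂ) * B₁ + (X - C z₀) * derivative B₁) := by
      obtain ⟨k, hk⟩ : ∃ k, m = k + 1 := ⟨m - 1, by omega⟩
      rw [hB₁, hk, derivative_mul, derivative_X_sub_C_pow, Nat.add_sub_cancel]
      push_cast
      ring
    have key : X * (X - 1) * ((X - C z₀) * (derivative A * B₁ - A * derivative B₁) -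
        C (m : ℂ) * (A * B₁)) - C (β : ℂ) * (2 * X - 1) * (X - C z₀) * (A * B₁) =
        C c * (X * (X - 1) * (X - C z₀) ^ (m + 1) * B₁ ^ 2) := by
      have hpow : (X - C z₀) ^ m ≠ 0 := pow_ne_zero _ (X_sub_C_ne_zero z₀)
      apply mul_left_cancel₀ hpow
      have h3 : (X - C z₀) * (X * (X - 1) * (derivative A * B - A * derivative B) -
          C (β : ℂ) * (2 * X - 1) * (A * B)) = (X - C z₀) * (C c * (X * (X - 1) * B ^ 2)) := by
        rw [h]
      calc (X - C z₀) ^ m * (X * (X - 1) * ((X - C z₀) * (derivative A * B₁ - A * derivative B₁) -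
            C (m : ℂ) * (A * B₁)) - C (β : ℂ) * (2 * X - 1) * (X - C z₀) * (A * B₁))
          = X * (X - 1) * ((X - C z₀) * derivative A * ((X - C z₀) ^ m * B₁) -
              A * ((X - C z₀) ^ m * (C (m : ℂ) * B₁ + (X - C z₀) * derivative B₁))) -
              C (β : ℂ) * (2 * X - 1) * (X - C z₀) * (A * ((X - C z₀) ^ m * B₁)) := by ring
        _ = X * (X - 1) * ((X - C z₀) * derivative A * B - A * ((X - C z₀) * derivative B)) -
              C (β : ℂ) * (2 * X - 1) * (X - C z₀) * (A * B) := by rw [← hder, ← hB₁]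
        _ = (X - C z₀) * (X * (X - 1) * (derivative A * B - A * derivative B) -
              C (β : ℂ) * (2 * X - 1) * (A * B)) := by ring
        _ = (X - C z₀) * (C c * (X * (X - 1) * B ^ 2)) := h3
        _ = (X - C z₀) * (C c * (X * (X - 1) * ((X - C z₀) ^ m * B₁) ^ 2)) := by rw [← hB₁]
        _ = (X - C z₀) ^ m * (C c * (X * (X - 1) * (X - C z₀) ^ (m + 1) * B₁ ^ 2)) := by ring
    have hmβ : (m : ℂ) + (β : ℂ) ≠ 0 := by
      intro h0
      have h3 : ((m : ℝ) + β : ℝ) = 0 := by exact_mod_cast h0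
      have h4 : (0 : ℝ) ≤ (m : ℝ) := Nat.cast_nonneg m
      linarith
    have hm0 : (m : ℂ) ≠ 0 := by
      rw [Nat.cast_ne_zero]; omega
    by_cases hz0 : z₀ = 0
    · subst hz0
      rw [C_0, sub_zero] at key
      have key2 : (X - 1) * (X * (derivative A * B₁ - A * derivative B₁) -
          C (m : ℂ) * (A * B₁)) - C (β : ℂ) * (2 * X - 1) * (A * B₁) =
          C c * ((X - 1) * X ^ (m + 1) * B₁ ^ 2) := by
        apply mul_left_cancel₀ (X_ne_zero (R := ℂ))
        linear_combination key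
      have h3 := congrArg (eval 0) key2
      simp only [eval_sub, eval_mul, eval_X, eval_one, eval_C, eval_pow, eval_ofNat] at h3
      rw [zero_pow (by omega)] at h3
      apply mul_ne_zero hmβ (mul_ne_zero hA0 hB₁0)
      linear_combination h3
    · by_cases hz1 : z₀ = 1
      · subst hz1
        rw [C_1] at key
        have key2 : X * ((X - 1) * (derivative A * B₁ - A * derivative B₁) -
            C (m : ℂ) * (A * B₁)) - C (β : ℂ) * (2 * X - 1) * (A * B₁) =
            C c * (X * (X - 1) ^ (m + 1) * B₁ ^ 2) := by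
          have hX1 : (X - 1 : ℂ[X]) ≠ 0 := by
            have := X_sub_C_ne_zero (1 : ℂ)
            rwa [C_1] at this
          apply mul_left_cancel₀ hX1
          linear_combination key
        have h3 := congrArg (eval 1) key2
        simp only [eval_sub, eval_mul, eval_X, eval_one, eval_C, eval_pow, eval_ofNat] at h3
        rw [sub_self, zero_pow (by omega)] at h3
        apply mul_ne_zero hmβ (mul_ne_zero hA0 hB₁0)
        linear_combination -h3
      · have h3 := congrArg (eval z₀) key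
        simp only [eval_sub, eval_mul, eval_X, eval_one, eval_C, eval_pow, eval_ofNat] at h3
        rw [sub_self, zero_pow (by omega)] at h3
        have hz1' : z₀ - 1 ≠ 0 := sub_ne_zero.mpr hz1
        apply mul_ne_zero (mul_ne_zero hz0 hz1') (mul_ne_zero hm0 (mul_ne_zero hA0 hB₁0))
        linear_combination -h3
  -- `B` is constant
  have hBdeg : B.degree = 0 := by
    by_contra hdeg
    obtain ⟨z, hz⟩ := IsAlgClosed.exists_root B hdeg
    exact hnoroot z hz
  obtain ⟨b, hb⟩ : ∃ b, B = C b := ⟨_, eq_C_of_degree_eq_zero hBdeg⟩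
  have hb0 : b ≠ 0 := by
    rintro rfl
    rw [C_0] at hb
    exact hB hb
  by_contra hA
  have h3 : X * (X - 1) * derivative A - C (β : ℂ) * (2 * X - 1) * A = C (c * b) * (X * (X - 1)) := by
    have hCb : (C b : ℂ[X]) ≠ 0 := C_ne_zero.mpr hb0
    apply mul_left_cancel₀ hCb
    rw [hb, derivative_C] at h
    rw [C_mul]
    linear_combination h
  have hβ0 : (β : ℂ) ≠ 0 := by
    rw [Complex.ofReal_ne_zero]
    linarith
  have hA0 : A.eval 0 = 0 := by
    have h4 := congrArg (eval 0) h3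
    simp only [eval_sub, eval_mul, eval_X, eval_one, eval_C, eval_ofNat] at h4
    have h5 : (β : ℂ) * A.eval 0 = 0 := by linear_combination h4
    exact (mul_eq_zero.mp h5).resolve_left hβ0
  have hA1 : A.eval 1 = 0 := by
    have h4 := congrArg (eval 1) h3
    simp only [eval_sub, eval_mul, eval_X, eval_one, eval_C, eval_ofNat] at h4
    have h5 : (β : ℂ) * A.eval 1 = 0 := by linear_combination -h4
    exact (mul_eq_zero.mp h5).resolve_left hβ0
  have hk : 2 ≤ A.natDegree := by
    obtain ⟨A₁, hA₁⟩ := dvd_iff_isRoot.mpr hA0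
    have hA₁1 : A₁.eval 1 = 0 := by
      have := hA1
      rw [hA₁, eval_mul] at this
      simpa using this
    obtain ⟨A₂, hA₂⟩ := dvd_iff_isRoot.mpr hA₁1
    have hA₂0 : A₂ ≠ 0 := by
      rintro rfl
      rw [mul_zero] at hA₂
      rw [hA₂, mul_zero] at hA₁
      exact hA hA₁
    rw [hA₁, hA₂, natDegree_mul (X_sub_C_ne_zero 0) (mul_ne_zero (X_sub_C_ne_zero 1) hA₂0),
      natDegree_mul (X_sub_C_ne_zero 1) hA₂0, natDegree_X_sub_C, natDegree_X_sub_C]
    omega
  obtain ⟨k, hk'⟩ : ∃ k, A.natDegree = k + 2 := ⟨A.natDegree - 2, by omega⟩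
  have hlead : A.coeff (k + 2) ≠ 0 := by
    rw [← hk']
    exact leadingCoeff_ne_zero.mpr hA
  have hnext : A.coeff (k + 3) = 0 := coeff_eq_zero_of_natDegree_lt (by omega)
  have h4 : X * (X * derivative A) - X * derivative A - C (β : ℂ) * (2 * (X * A) - A) =
      C (c * b) * (X * X) - C (c * b) * X := by linear_combination h3
  have h5 := congrArg (fun R : ℂ[X] => R.coeff (k + 3)) h4
  simp only [coeff_sub, coeff_X_mul, coeff_C_mul, coeff_derivative] at h5
  have e1 : ((2 : ℂ[X]) * (X * A)).coeff (k + 3) = 2 * A.coeff (k + 2) := by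
    have : (2 : ℂ[X]) = C 2 := rfl
    rw [this, coeff_C_mul, coeff_X_mul]
  have e2 : (X : ℂ[X]).coeff (k + 2) = 0 := coeff_X_of_ne_one (by omega)
  have e3 : (X : ℂ[X]).coeff (k + 3) = 0 := coeff_X_of_ne_one (by omega)
  rw [e1, e2, e3, hnext] at h5
  have h6 : ((k : ℂ) + 2 - 2 * β) * A.coeff (k + 2) = 0 := by
    push_cast at h5
    linear_combination h5
  rcases mul_eq_zero.mp h6 with h7 | h7
  · have h8 : ((k : ℝ) + 2 - 2 * β : ℝ) = 0 := by exact_mod_cast h7
    have h9 : (0 : ℝ) ≤ k := Nat.cast_nonneg k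
    linarith
  · exact hlead h7


lemma hasDerivAt_d1 {P Q : ℂ[X]} {z : ℂ} (hz : Q.eval z ≠ 0) :
    HasDerivAt (d1 P Q) (d2 P Q z) z := by
  have h1 := ((wn P Q).hasDerivAt z).div ((Q.hasDerivAt z).pow 2) (pow_ne_zero 2 hz)
  refine (HasDerivAt.congr_deriv h1 ?_)
  unfold d2
  simp only [Pi.pow_apply]
  field_simp
  ring

lemma hasDerivAt_quot {A B : ℂ[X]} {z : ℂ} (hz : B.eval z ≠ 0) :
    HasDerivAt (fun w => A.eval w / B.eval w)
      (((derivative A).eval z * B.eval z - A.eval z * (derivative B).eval z) / B.eval z ^ 2) z :=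
  (A.hasDerivAt z).div (B.hasDerivAt z) hz

lemma gg_fr {P Q : ℂ[X]} {z : ℂ} (β : ℝ) (hQ : Q.eval z ≠ 0) (hP : P.eval z ≠ 0)
    (hPQ : P.eval z - Q.eval z ≠ 0) :
    gg β (fr P Q z) = -(β * Q.eval z / P.eval z) - β * Q.eval z / (P.eval z - Q.eval z) := by
  unfold gg fr
  have h1 : P.eval z / Q.eval z - 1 = (P.eval z - Q.eval z) / Q.eval z := by field_simp
  rw [h1]
  field_simp

/-- the numerator of `chi` -/
noncomputable def NN (β : ℝ) (P Q : ℂ[X]) : ℂ[X] :=
  (derivative (wn P Q) * Q - 2 * wn P Q * derivative Q) * P * (P - Q) * (X * (X - 1)) -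
    C (β : ℂ) * wn P Q ^ 2 * (2 * P - Q) * (X * (X - 1)) +
    C (β : ℂ) * wn P Q * (2 * X - 1) * Q * P * (P - Q)

/-- the common denominator -/
noncomputable def DN (P Q : ℂ[X]) : ℂ[X] := Q ^ 3 * P * (P - Q) * (X * (X - 1))

/-- the numerator of the other term -/
noncomputable def MM (β : ℝ) (P Q H : ℂ[X]) : ℂ[X] :=
  -(C (β : ℂ) * wn P Q * H * (2 * P - Q) * (X * (X - 1))) +
    (derivative H * Q - 2 * H * derivative Q) * P * (P - Q) * (X * (X - 1))

lemma chi_eq {d : ℕ} (β : ℝ) (x : CV d) {z : ℂ} (hQ : (de x).eval z ≠ 0)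
    (hP : (nu x).eval z ≠ 0) (hPQ : (nu x).eval z - (de x).eval z ≠ 0) (h0 : z ≠ 0)
    (h1 : z - 1 ≠ 0) :
    chi β x z * (DN (nu x) (de x)).eval z = (NN β (nu x) (de x)).eval z := by
  unfold chi DN NN fx
  rw [gg_fr β hQ hP hPQ]
  unfold gg d1 d2
  simp only [eval_add, eval_sub, eval_mul, eval_X, eval_one, eval_C, eval_pow, eval_ofNat]
  field_simp
  ring

lemma mm_eq {d : ℕ} (β : ℝ) (x ξ : CV d) {z : ℂ} (hQ : (de x).eval z ≠ 0)
    (hP : (nu x).eval z ≠ 0) (hPQ : (nu x).eval z - (de x).eval z ≠ 0) (h0 : z ≠ 0)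
    (h1 : z - 1 ≠ 0) :
    (d1 (nu x) (de x) z * gg β (fx x z) * et x ξ z + deriv (et x ξ) z) *
      (DN (nu x) (de x)).eval z = (MM β (nu x) (de x) (nu ξ * de x - nu x * de ξ)).eval z := by
  have hd : HasDerivAt (et x ξ) (((derivative (nu ξ * de x - nu x * de ξ)).eval z * (de x).eval z -
      2 * (nu ξ * de x - nu x * de ξ).eval z * (derivative (de x)).eval z) / (de x).eval z ^ 3) z := by
    have h2 := ((nu ξ * de x - nu x * de ξ).hasDerivAt z).div (((de x).hasDerivAt z).pow 2)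
      (pow_ne_zero 2 hQ)
    have e : et x ξ = (fun w => (nu ξ * de x - nu x * de ξ).eval w) /
        (fun w => (de x).eval w) ^ 2 := by
      funext w
      simp only [et, Pi.div_apply, Pi.pow_apply, eval_sub, eval_mul]
    rw [e]
    refine (HasDerivAt.congr_deriv h2 ?_)
    simp only [Pi.pow_apply]
    field_simp
    ring
  rw [hd.deriv]
  unfold MM DN fx
  rw [gg_fr β hQ hP hPQ]
  unfold d1 et
  simp only [eval_add, eval_sub, eval_mul, eval_X, eval_one, eval_C, eval_pow, eval_ofNat,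
    eval_neg]
  field_simp
  ring

lemma good {β : ℝ} {P Q : ℂ[X]} {z : ℂ} (h : (DN P Q * NN β P Q * wn P Q).eval z ≠ 0) :
    Q.eval z ≠ 0 ∧ P.eval z ≠ 0 ∧ P.eval z - Q.eval z ≠ 0 ∧ z ≠ 0 ∧ z - 1 ≠ 0 ∧
      (NN β P Q).eval z ≠ 0 ∧ (wn P Q).eval z ≠ 0 ∧ (DN P Q).eval z ≠ 0 := by
  rw [eval_mul, eval_mul] at h
  have h1 := right_ne_zero_of_mul h
  have h2 := left_ne_zero_of_mul h
  have h3 := right_ne_zero_of_mul h2
  have h4 := left_ne_zero_of_mul h2
  have h5 := h4
  unfold DN at h5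
  simp only [eval_mul, eval_pow, eval_sub, eval_X, eval_one] at h5
  have a1 := left_ne_zero_of_mul h5
  have a2 := right_ne_zero_of_mul h5
  have a3 := left_ne_zero_of_mul a1
  have a4 := right_ne_zero_of_mul a1
  have a5 := left_ne_zero_of_mul a3
  have a6 := right_ne_zero_of_mul a3
  refine ⟨?_, a6, a4, left_ne_zero_of_mul a2, right_ne_zero_of_mul a2, h3, h1, h4⟩
  intro h0
  rw [h0] at a5
  exact a5 (by ring)

/-- an identity which holds almost everywhere holds at the points of continuity -/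
lemma eq_of_ae {φ : ℂ → ℂ} (h : ∀ᵐ z : ℂ, φ z = 0) {z₀ : ℂ} (hc : ContinuousAt φ z₀) :
    φ z₀ = 0 := by
  by_contra hne
  have h1 : ∀ᶠ z in 𝓝 z₀, φ z ≠ 0 := hc.eventually_ne hne
  have h2 : Dense {z : ℂ | φ z = 0} := Measure.dense_of_ae h
  obtain ⟨z, hz1, hz2⟩ := h2.inter_nhds_nonempty h1
  exact hz2 hz1

lemma reduce (A B : ℂ[X]) (hB : B ≠ 0) : ∃ G A₁ B₁ : ℂ[X], G ≠ 0 ∧ B₁ ≠ 0 ∧ A = G * A₁ ∧
    B = G * B₁ ∧ IsCoprime A₁ B₁ := by
  obtain ⟨A₁, hA₁⟩ := EuclideanDomain.gcd_dvd_left A B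
  obtain ⟨B₁, hB₁⟩ := EuclideanDomain.gcd_dvd_right A B
  have hG : EuclideanDomain.gcd A B ≠ 0 := by
    intro h0
    rw [h0, zero_mul] at hB₁
    exact hB hB₁
  refine ⟨EuclideanDomain.gcd A B, A₁, B₁, hG, ?_, hA₁, hB₁, ?_⟩
  · rintro rfl
    rw [mul_zero] at hB₁
    exact hB hB₁
  · have h1 := EuclideanDomain.gcd_eq_gcd_ab A B
    refine ⟨EuclideanDomain.gcdA A B, EuclideanDomain.gcdB A B, ?_⟩
    apply mul_left_cancel₀ hG
    rw [mul_one]
    calc EuclideanDomain.gcd A B * (EuclideanDomain.gcdA A B * A₁ + EuclideanDomain.gcdB A B * B₁)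
        = (EuclideanDomain.gcd A B * A₁) * EuclideanDomain.gcdA A B +
          (EuclideanDomain.gcd A B * B₁) * EuclideanDomain.gcdB A B := by ring
      _ = A * EuclideanDomain.gcdA A B + B * EuclideanDomain.gcdB A B := by
          rw [← hA₁, ← hB₁]
      _ = EuclideanDomain.gcd A B := h1.symm

theorem task : StUGA := by
  intro β d x hβ1 hβ2 hd hND hNrm hGz
  have hcop : IsCoprime (nu x) (de x) := (Pool.Agent.H790R3.RB.PQ.part1 (by omega) x hND).1
  have hR : RM d (nu x) (de x) :=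
    ⟨hd, hcop, (Pool.Agent.H790R3.RB.PQ.part1 (by omega) x hND).2⟩
  obtain ⟨hN1, hN2⟩ := hNrm
  have hPd : (nu x).coeff d = 1 := by
    have := Pool.Agent.H790R3.RB.PQ.pol_coeff x 0 (Fin.last d)
    rw [Fin.val_last, hN1] at this
    exact this
  have hQd : (de x).coeff d = 0 := by
    have := Pool.Agent.H790R3.RB.PQ.pol_coeff x 1 (Fin.last d)
    rw [Fin.val_last, hN2] at this
    exact this
  have hP0 : nu x ≠ 0 := by
    intro h0
    rw [h0, coeff_zero] at hPd
    exact zero_ne_one hPd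
  have hPQ0 : nu x - de x ≠ 0 := by
    intro h0
    have h1 := congrArg (fun R : ℂ[X] => R.coeff d) h0
    simp only [coeff_sub, hPd, hQd, coeff_zero, sub_zero] at h1
    exact one_ne_zero h1
  have hQ0 : de x ≠ 0 := Q_ne hR
  have hX1 : (X - 1 : ℂ[X]) ≠ 0 := by
    have := X_sub_C_ne_zero (1 : ℂ)
    rwa [C_1] at this
  have hD : DN (nu x) (de x) ≠ 0 := by
    unfold DN
    exact mul_ne_zero (mul_ne_zero (mul_ne_zero (pow_ne_zero _ hQ0) hP0) hPQ0)
      (mul_ne_zero X_ne_zero hX1)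
  have hβ0 : (β : ℂ) ≠ 0 := by
    rw [Complex.ofReal_ne_zero]
    linarith
  obtain ⟨ζ, hζ0, hζ1, hPζ, hPζ', hQζ⟩ := hGz
  have hN : NN β (nu x) (de x) ≠ 0 := by
    intro h0
    have h1 := congrArg (eval ζ) h0
    unfold NN wn at h1
    simp only [eval_add, eval_sub, eval_mul, eval_X, eval_one, eval_C, eval_pow, eval_ofNat, hPζ,
      eval_zero] at h1
    have hζ1' : ζ - 1 ≠ 0 := sub_ne_zero.mpr hζ1
    apply mul_ne_zero (mul_ne_zero hβ0 (pow_ne_zero 2 (mul_ne_zero hPζ' hQζ)))
      (mul_ne_zero hQζ (mul_ne_zero hζ0 hζ1'))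
    linear_combination h1
  have hW := wn_ne hR
  have hR0 : DN (nu x) (de x) * NN β (nu x) (de x) * wn (nu x) (de x) ≠ 0 :=
    mul_ne_zero (mul_ne_zero hD hN) hW
  have hchi : ∀ z : ℂ, (DN (nu x) (de x) * NN β (nu x) (de x) * wn (nu x) (de x)).eval z ≠ 0 →
      chi β x z ≠ 0 := by
    intro z hz h0
    obtain ⟨g1, g2, g3, g4, g5, g6, g7, g8⟩ := good hz
    have h1 := chi_eq β x g1 g2 g3 g4 g5
    rw [h0, zero_mul] at h1
    exact g6 h1.symm
  refine ⟨(zeros_finite hR0).subset fun z hz => ?_, ?_⟩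
  · by_contra hne
    exact hchi z hne hz
  intro ξ hξ0 hξ1 hae
  obtain ⟨G, A, B, hG, hB, hA', hB', hAB⟩ := reduce
    (-(MM β (nu x) (de x) (nu ξ * de x - nu x * de ξ))) (NN β (nu x) (de x)) hN
  set D0 : Set ℂ := {z : ℂ | (DN (nu x) (de x) * NN β (nu x) (de x) * wn (nu x) (de x)).eval z = 0}
    with hD0
  have hD0f : D0.Finite := zeros_finite hR0
  have hmemD0 : ∀ z : ℂ, z ∉ D0 →
      (DN (nu x) (de x) * NN β (nu x) (de x) * wn (nu x) (de x)).eval z ≠ 0 := fun z hz h => hz h
  have hGB : ∀ z : ℂ, z ∉ D0 → G.eval z ≠ 0 ∧ B.eval z ≠ 0 := by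
    intro z hz
    obtain ⟨g1, g2, g3, g4, g5, g6, g7, g8⟩ := good (hmemD0 z hz)
    rw [hB', eval_mul] at g6
    exact ⟨left_ne_zero_of_mul g6, right_ne_zero_of_mul g6⟩
  -- the function `uu` is rational
  have huu : ∀ z : ℂ, z ∉ D0 → uu β x ξ z = A.eval z / B.eval z := by
    intro z hz
    obtain ⟨g1, g2, g3, g4, g5, g6, g7, g8⟩ := good (hmemD0 z hz)
    obtain ⟨hGz, hBz⟩ := hGB z hz
    have h1 := chi_eq β x g1 g2 g3 g4 g5
    have h2 := mm_eq β x ξ g1 g2 g3 g4 g5
    have h3 := hchi z (hmemD0 z hz)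
    have h4 := congrArg (eval z) hA'
    have h5 := congrArg (eval z) hB'
    rw [eval_neg, eval_mul] at h4
    rw [eval_mul] at h5
    unfold uu
    rw [div_eq_div_iff h3 hBz]
    apply mul_right_cancel₀ g8
    apply mul_left_cancel₀ hGz
    rw [← h2] at h4
    rw [← h1] at h5
    linear_combination (chi β x z * (DN (nu x) (de x)).eval z) * h4 -
      (-(d1 (nu x) (de x) z * gg β (fx x z) * et x ξ z + deriv (et x ξ) z) *
        (DN (nu x) (de x)).eval z) * h5
  -- the good set
  set D1 : Set ℂ := D0 ∪ {z : ℂ | (de x).eval z ≠ 0 ∧ fr (nu x) (de x) z ∈ D0} with hD1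
  have hD1f : D1.Finite := hD0f.union (preimage_finite hR hD0f)
  have hgood : ∀ z : ℂ, z ∉ D1 → z ∉ D0 ∧ fx x z ∉ D0 := by
    intro z hz
    rw [hD1, mem_union, not_or] at hz
    refine ⟨hz.1, fun h => hz.2 ⟨?_, h⟩⟩
    exact (good (hmemD0 z hz.1)).1
  have hrel : ∀ z : ℂ, z ∉ D1 → et x ξ z = A.eval (fx x z) / B.eval (fx x z) -
      d1 (nu x) (de x) z * (A.eval z / B.eval z) := by
    intro z hz
    obtain ⟨hz0, hfz0⟩ := hgood z hz
    obtain ⟨g1, g2, g3, g4, g5, g6, g7, g8⟩ := good (hmemD0 z hz0)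
    have hBz := (hGB z hz0).2
    have hBfz := (hGB _ hfz0).2
    have hφ : ∀ᵐ z : ℂ, (fun z => et x ξ z - (A.eval (fx x z) / B.eval (fx x z) -
        d1 (nu x) (de x) z * (A.eval z / B.eval z))) z = 0 := by
      have hnull : ∀ᵐ z : ℂ, z ∉ D1 := by
        rw [ae_iff]
        simp only [not_not, Set.ofPred_mem_eq]
        exact hD1f.measure_zero volume
      filter_upwards [hae, hnull] with w hw1 hw2
      obtain ⟨k1, k2⟩ := hgood w hw2
      rw [hw1, huu _ k1, huu _ k2, sub_self]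
    have hfc : ContinuousAt (fx x) z := (has_deriv g1).hasDerivAt.continuousAt
    have hc : ContinuousAt (fun z => et x ξ z - (A.eval (fx x z) / B.eval (fx x z) -
        d1 (nu x) (de x) z * (A.eval z / B.eval z))) z := by
      apply ContinuousAt.sub
      · unfold et
        apply ContinuousAt.div
        · exact (((nu ξ).continuous.mul (de x).continuous).sub
            ((nu x).continuous.mul (de ξ).continuous)).continuousAt
        · exact ((de x).continuous.pow 2).continuousAt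
        · exact pow_ne_zero 2 g1
      · apply ContinuousAt.sub
        · apply ContinuousAt.div
          · exact A.continuous.continuousAt.comp hfc
          · exact B.continuous.continuousAt.comp hfc
          · exact hBfz
        · apply ContinuousAt.mul
          · exact (hasDerivAt_d1 g1).continuousAt
          · exact A.continuous.continuousAt.div B.continuous.continuousAt hBz
    have h1 := eq_of_ae hφ hc
    exact sub_eq_zero.mp h1
  -- differentiation of the relation
  have hDD : ∀ z : ℂ, z ∉ D1 →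
      ((derivative A).eval (fx x z) * B.eval (fx x z) -
        A.eval (fx x z) * (derivative B).eval (fx x z)) / B.eval (fx x z) ^ 2 +
        gg β (fx x z) * (A.eval (fx x z) / B.eval (fx x z)) =
      ((derivative A).eval z * B.eval z - A.eval z * (derivative B).eval z) / B.eval z ^ 2 +
        gg β z * (A.eval z / B.eval z) := by
    intro z hz
    obtain ⟨hz0, hfz0⟩ := hgood z hz
    obtain ⟨g1, g2, g3, g4, g5, g6, g7, g8⟩ := good (hmemD0 z hz0)
    have hBz := (hGB z hz0).2
    have hBfz := (hGB _ hfz0).2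
    have hd1 : HasDerivAt (fun w => A.eval (fx x w) / B.eval (fx x w))
        (((derivative A).eval (fx x z) * B.eval (fx x z) -
        A.eval (fx x z) * (derivative B).eval (fx x z)) / B.eval (fx x z) ^ 2 *
        d1 (nu x) (de x) z) z :=
      (hasDerivAt_quot (A := A) hBfz).comp z (has_deriv g1).hasDerivAt
    have hd2 : HasDerivAt (fun w => d1 (nu x) (de x) w * (A.eval w / B.eval w))
        (d2 (nu x) (de x) z * (A.eval z / B.eval z) + d1 (nu x) (de x) z *
        (((derivative A).eval z * B.eval z - A.eval z * (derivative B).eval z) /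
          B.eval z ^ 2)) z :=
      (hasDerivAt_d1 g1).mul (hasDerivAt_quot (A := A) hBz)
    have hev : et x ξ =ᶠ[𝓝 z] fun w => A.eval (fx x w) / B.eval (fx x w) -
        d1 (nu x) (de x) w * (A.eval w / B.eval w) := by
      filter_upwards [hD1f.isClosed.isOpen_compl.mem_nhds hz] with w hw
      exact hrel w hw
    have hd3 := ((hd1.sub hd2).congr_of_eventuallyEq hev).deriv
    have hu := huu z hz0
    have hchiz := hchi z (hmemD0 z hz0)
    unfold uu at hu
    rw [div_eq_iff hchiz, hd3, hrel z hz] at hu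
    unfold chi at hu
    have hd10 : d1 (nu x) (de x) z ≠ 0 := by
      unfold d1
      exact div_ne_zero g7 (pow_ne_zero 2 g1)
    apply mul_left_cancel₀ hd10
    linear_combination -hu
  -- the invariant rational function
  have hB2 : (X * (X - 1) * B ^ 2 : ℂ[X]) ≠ 0 :=
    mul_ne_zero (mul_ne_zero X_ne_zero hX1) (pow_ne_zero 2 hB)
  obtain ⟨G2, A3, B3, hG2, hB3, hA3', hB3', hAB3⟩ := reduce
    (X * (X - 1) * (derivative A * B - A * derivative B) - C (β : ℂ) * (2 * X - 1) * (A * B))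
    (X * (X - 1) * B ^ 2) hB2
  have hval : ∀ z : ℂ, z ∉ D0 → B3.eval z ≠ 0 ∧
      ((derivative A).eval z * B.eval z - A.eval z * (derivative B).eval z) / B.eval z ^ 2 +
        gg β z * (A.eval z / B.eval z) = A3.eval z / B3.eval z := by
    intro z hz
    obtain ⟨g1, g2, g3, g4, g5, g6, g7, g8⟩ := good (hmemD0 z hz)
    have hBz := (hGB z hz).2
    have h1 := congrArg (eval z) hA3'
    have h2 := congrArg (eval z) hB3'
    simp only [eval_sub, eval_mul, eval_X, eval_one, eval_C, eval_pow, eval_ofNat] at h1 h2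
    have h3 : z * (z - 1) * B.eval z ^ 2 ≠ 0 :=
      mul_ne_zero (mul_ne_zero g4 g5) (pow_ne_zero 2 hBz)
    have h4 : G2.eval z ≠ 0 := by
      rw [h2] at h3
      exact left_ne_zero_of_mul h3
    have h5 : B3.eval z ≠ 0 := by
      rw [h2] at h3
      exact right_ne_zero_of_mul h3
    refine ⟨h5, ?_⟩
    have h6 : A3.eval z / B3.eval z = (G2.eval z * A3.eval z) / (G2.eval z * B3.eval z) := by
      rw [mul_div_mul_left _ _ h4]
    rw [h6, ← h1, ← h2]
    unfold gg
    field_simp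
    ring
  obtain ⟨c, hc⟩ := const_of_comp hR A3 B3 hAB3 hB3 D1 hD1f (by
    intro z hz hQz
    obtain ⟨hz0, hfz0⟩ := hgood z hz
    have h1 := hDD z hz
    rw [(hval z hz0).2, (hval _ hfz0).2,
      div_eq_div_iff (hval _ hfz0).1 (hval z hz0).1] at h1
    exact h1)
  have hA0 : A = 0 := by
    apply ode hβ1 hβ2 A B hAB hB c
    rw [hA3', hc, hB3']
    ring
  -- the perturbation vanishes
  have hH : nu ξ * de x - nu x * de ξ = 0 := by
    apply eq_zero_of_infinite_isRoot
    apply (hD1f.infinite_compl).mono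
    intro z hz
    have h1 := hrel z hz
    rw [hA0] at h1
    simp only [eval_zero, zero_div, mul_zero, sub_zero] at h1
    have g1 := (good (hmemD0 z (hgood z hz).1)).1
    unfold et at h1
    rw [div_eq_zero_iff] at h1
    rcases h1 with h1 | h1
    · show (nu ξ * de x - nu x * de ξ).eval z = 0
      rw [eval_sub, eval_mul, eval_mul]
      exact h1
    · exact absurd h1 (pow_ne_zero 2 g1)
  have hcoef : ∀ (i : Fin 2) (j : Fin (d + 1)), (pol ξ i).coeff (j : ℕ) = ξ (i, j) :=
    fun i j => Pool.Agent.H790R3.RB.PQ.pol_coeff ξ i j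
  have hnξ : nu ξ = 0 := by
    by_contra hne
    have hdvd : nu x ∣ nu ξ := by
      apply hcop.dvd_of_dvd_mul_right
      rw [sub_eq_zero.mp hH]
      exact dvd_mul_right _ _
    have h1 := natDegree_le_of_dvd hdvd hne
    have h2 : (nu x).natDegree = d := by
      apply le_antisymm (Pool.Agent.H790R3.RB.PQ.pol_natDegree x 0)
      apply le_natDegree_of_ne_zero
      have h9 : (nu x).coeff d ≠ 0 := by
        rw [hPd]
        exact one_ne_zero
      exact h9
    have h3 : (nu ξ).natDegree ≤ d := Pool.Agent.H790R3.RB.PQ.pol_natDegree ξ 0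
    have h4 : (nu ξ).natDegree = d := le_antisymm h3 (h2.symm.le.trans h1)
    have h5 : (nu ξ).coeff d = 0 := by
      have := hcoef 0 (Fin.last d)
      rw [Fin.val_last, hξ0] at this
      exact this
    apply hne
    apply leadingCoeff_eq_zero.mp
    unfold leadingCoeff
    exact (congrArg (fun k => (nu ξ).coeff k) h4).trans h5
  have hdξ : de ξ = 0 := by
    rw [hnξ, zero_mul, zero_sub, neg_eq_zero] at hH
    exact (mul_eq_zero.mp hH).resolve_left hP0
  funext ⟨i, j⟩
  rw [← hcoef i j]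
  fin_cases i
  · have : pol ξ 0 = 0 := hnξ
    show (pol ξ 0).coeff (j : ℕ) = 0
    rw [this, coeff_zero]
  · have : pol ξ 1 = 0 := hdξ
    show (pol ξ 1).coeff (j : ℕ) = 0
    rw [this, coeff_zero]

end Pool.Agent.W402.RE.UGA
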